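import Pool.Agent.Y742.SP.Stm

/-!
# Derivations at smooth points of plane curves (job SP-CHART of helper742)

Derivations which map the coordinates of a smooth point of a plane affine curve to regular
functions are regular.
-/

set_option autoImplicit false

namespace Pool.Agent.Y971.SP

open MvPolynomial FF

section Key

variable {B A F : Type*} [Field B] [CommRing A] [Algebra B A] [Field F]

theorem key (z : Fin 2 → A) (hz : Function.Surjective (aeval z : MvPolynomial (Fin 2) B →ₐ[B] A))
    (H : MvPolynomial (Fin 2) B) (hH : aeval z H = 0) (ρ : A →+* F)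
    (hs : ρ (aeval z (pderiv 1 H)) ≠ 0) (h : Polynomial B) (hirr : Irreducible h)
    (hh : ρ (Polynomial.aeval (z 0) h) = 0) (a : A) (ha : ρ a = 0) :
    ∃ s, ρ s ≠ 0 ∧ Polynomial.aeval (z 0) h ∣ s * a := by
  have : Fact (Irreducible h) := ⟨hirr⟩
  set I : Ideal A := Ideal.span {Polynomial.aeval (z 0) h} with hI
  let q : A →+* A ⧸ I := Ideal.Quotient.mk I
  have hq0 : q (Polynomial.aeval (z 0) h) = 0 :=
    Ideal.Quotient.eq_zero_iff_mem.2 (Ideal.subset_span rfl)
  let α : AdjoinRoot h →+* A ⧸ I := AdjoinRoot.lift (q.comp (algebraMap B A)) (q (z 0)) (by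
    rw [← Polynomial.hom_eval₂]
    rw [Polynomial.aeval_def] at hq0
    exact hq0)
  let ψ : Polynomial (AdjoinRoot h) →+* A ⧸ I := Polynomial.eval₂RingHom α (q (z 1))
  let Φ : MvPolynomial (Fin 2) B →+* Polynomial (AdjoinRoot h) :=
    eval₂Hom (Polynomial.C.comp (AdjoinRoot.of h))
      ![Polynomial.C (AdjoinRoot.root h), Polynomial.X]
  have hψΦ : ∀ p : MvPolynomial (Fin 2) B, ψ (Φ p) = q (aeval z p) := by
    intro p
    have : ψ.comp Φ = q.comp (aeval z : MvPolynomial (Fin 2) B →ₐ[B] A).toRingHom := by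
      apply MvPolynomial.ringHom_ext
      · intro r
        simp only [ψ, Φ, α, RingHom.comp_apply, coe_eval₂Hom, eval₂_C, Polynomial.coe_eval₂RingHom,
          Polynomial.eval₂_C, AdjoinRoot.lift_of, AlgHom.toRingHom_eq_coe, RingHom.coe_coe, aeval_C]
      · intro i
        fin_cases i
        · simp [ψ, Φ, α]
        · simp [ψ, Φ]
    exact RingHom.congr_fun this p
  have hρI : ∀ x ∈ I, ρ x = 0 := by
    intro x hx
    obtain ⟨c, rfl⟩ := Ideal.mem_span_singleton'.1 hx
    rw [map_mul, hh, mul_zero]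
  let ρ' : A ⧸ I →+* F := Ideal.Quotient.lift I ρ hρI
  have hρ' : ∀ x, ρ' (q x) = ρ x := fun x => Ideal.Quotient.lift_mk I ρ hρI
  let e : Polynomial (AdjoinRoot h) →+* F := ρ'.comp ψ
  have heΦ : ∀ p : MvPolynomial (Fin 2) B, e (Φ p) = ρ (aeval z p) := by
    intro p
    change ρ' (ψ (Φ p)) = _
    rw [hψΦ, hρ']
  have hder : ∀ p : MvPolynomial (Fin 2) B, Polynomial.derivative (Φ p) = Φ (pderiv 1 p) := by
    intro p
    induction p using MvPolynomial.induction_on with
    | C r => simp [Φ]
    | add p q hp hq => rw [map_add, map_add, hp, hq, map_add, map_add]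
    | mul_X p i hp =>
      rw [map_mul, Polynomial.derivative_mul, hp, Derivation.leibniz, map_add, smul_eq_mul,
        smul_eq_mul, map_mul, map_mul]
      have h1 : Polynomial.derivative (Φ (X i)) = Φ (pderiv 1 (X i)) := by
        fin_cases i
        · simp [Φ, pderiv_X]
        · simp [Φ, pderiv_X]
      rw [h1]
      ring
  obtain ⟨g, hg⟩ := (IsPrincipalIdealRing.principal (RingHom.ker e)).principal
  have hmem : ∀ p, e p = 0 → ∃ c, p = g * c := by
    intro p hp
    have : p ∈ RingHom.ker e := hp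
    rw [hg] at this
    obtain ⟨c, hc⟩ := Ideal.mem_span_singleton'.1 this
    exact ⟨c, by rw [← hc, mul_comm]⟩
  have hg0 : e g = 0 := by
    have : g ∈ RingHom.ker e := by rw [hg]; exact Ideal.subset_span rfl
    exact this
  obtain ⟨H1, hH1⟩ := hmem (Φ H) (by rw [heΦ, hH, map_zero])
  have hne : e H1 ≠ 0 := by
    intro h0
    obtain ⟨H2, hH2⟩ := hmem H1 h0
    apply hs
    rw [← heΦ, ← hder, hH1, hH2]
    simp only [Polynomial.derivative_mul, map_add, map_mul, hg0]
    ring
  obtain ⟨G0, rfl⟩ := hz a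
  obtain ⟨G1, hG1⟩ := hmem (Φ G0) (by rw [heΦ, ha])
  obtain ⟨s, hs1⟩ := Ideal.Quotient.mk_surjective (ψ H1)
  refine ⟨s, ?_, ?_⟩
  · rw [← hρ' s]
    change ρ' (Ideal.Quotient.mk I s) ≠ 0
    rw [hs1]
    exact hne
  · rw [← Ideal.mem_span_singleton, ← hI, ← Ideal.Quotient.eq_zero_iff_mem, map_mul, hs1]
    have h2 : ψ (Φ G0) = Ideal.Quotient.mk I (aeval z G0) := hψΦ G0
    have h3 : ψ (Φ H) = 0 := by rw [hψΦ H, hH, map_zero]
    rw [← h2, hG1, map_mul, ← mul_assoc, mul_comm (ψ H1), ← map_mul, ← hH1, h3, zero_mul]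

end Key

section alg

variable {k K : Type*} [Field k] [Field K] [Algebra k K]

theorem reg_int (P : Place k K) {b : K} (hb : IsIntegral k b) : P.Reg b := by
  let ψ : k →+* P.O := (algebraMap k K).codRestrict P.O P.reg_const
  have hb' : IsIntegral P.O b := by
    obtain ⟨p, hp, he⟩ := hb
    refine ⟨p.map ψ, hp.map _, ?_⟩
    rw [Polynomial.eval₂_map]
    exact he
  obtain ⟨y, hy⟩ := (IsIntegrallyClosed.isIntegral_iff (R := P.O) (K := K)).1 hb'
  rw [← hy]
  exact y.2

theorem ord_alg (P : Place k K) {f : K} (hf0 : f ≠ 0) (hf : IsAlgebraic k f) :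
    P.ord f = 0 := by
  have h1 : P.Reg f := reg_int P hf.isIntegral
  have h2 : P.Reg f⁻¹ := reg_int P hf.inv.isIntegral
  have h3 := (P.reg_iff hf0).1 h1
  have h4 := (P.reg_iff (inv_ne_zero hf0)).1 h2
  rw [P.ord_inv] at h4
  omega

/-- A place is a place over a larger field of constants on which it is trivial. -/
def chg (P : Place k K) (L : IntermediateField k K) (h : ∀ a ∈ L, a ≠ 0 → P.ord a = 0) :
    Place L K where
  ord := P.ord
  ord_zero := P.ord_zero
  ord_mul := P.ord_mul
  ord_add := P.ord_add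
  ord_const := fun {c} hc => h _ c.2 (fun h0 => hc (Subtype.ext h0))
  surj := P.surj

theorem chg_reg (P : Place k K) (L : IntermediateField k K) (h : ∀ a ∈ L, a ≠ 0 → P.ord a = 0)
    (f : K) : (chg P L h).Reg f ↔ P.Reg f := Iff.rfl

end alg

section main

variable {B M : Type*} [Field B] [Field M] [Algebra B M] (P : Place B M)

theorem reg_aeval {ι : Type*} {z : ι → M} (hz : ∀ i, P.Reg (z i)) (p : MvPolynomial ι B) :
    P.Reg (aeval z p) := by
  induction p using MvPolynomial.induction_on with
  | C r => rw [aeval_C]; exact P.reg_const r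
  | add p q hp hq => rw [map_add]; exact P.reg_add hp hq
  | mul_X p i hp => rw [map_mul, aeval_X]; exact P.reg_mul hp (hz i)

theorem ord_aeval1 {x : M} (hx : P.Reg x)
    (hc : ∀ h : Polynomial B, Irreducible h → Polynomial.aeval x h ≠ 0 →
      ¬ 0 < P.ord (Polynomial.aeval x h)) (F : Polynomial B) :
    Polynomial.aeval x F ≠ 0 → P.ord (Polynomial.aeval x F) = 0 := by
  have hreg : ∀ F : Polynomial B, P.Reg (Polynomial.aeval x F) := by
    intro F
    induction F using Polynomial.induction_on' with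
    | add p q hp hq => rw [map_add]; exact P.reg_add hp hq
    | monomial n r =>
      rw [Polynomial.aeval_monomial]
      refine P.reg_mul (P.reg_const r) ?_
      induction n with
      | zero => rw [pow_zero]; exact P.reg_one
      | succ n ih => rw [pow_succ]; exact P.reg_mul ih hx
  induction F using WfDvdMonoid.induction_on_irreducible with
  | zero => intro h; simp at h
  | unit u hu =>
    intro _
    obtain ⟨r, hr, rfl⟩ := Polynomial.isUnit_iff.1 hu
    rw [Polynomial.aeval_C]
    exact P.ord_const hr.ne_zero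
  | mul a i ha hi ih =>
    intro h
    rw [map_mul] at h ⊢
    have h1 := left_ne_zero_of_mul h
    have h2 := right_ne_zero_of_mul h
    rw [P.ord_mul h1 h2, ih h2]
    have h3 := hc i hi h1
    have h4 := (P.reg_iff h1).1 (hreg i)
    omega

theorem exists_h {z : Fin 2 → M} (hz : ∀ i, P.Reg (z i)) {H : MvPolynomial (Fin 2) B}
    (hH : aeval z H = 0) (hs : aeval z (pderiv 1 H) ≠ 0)
    (hgen : IntermediateField.adjoin B (Set.range z) = ⊤) :
    ∃ h : Polynomial B, Irreducible h ∧ Polynomial.aeval (z 0) h ≠ 0 ∧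
      0 < P.ord (Polynomial.aeval (z 0) h) := by
  by_contra hcon
  push Not at hcon
  have hc : ∀ h : Polynomial B, Irreducible h → Polynomial.aeval (z 0) h ≠ 0 →
      ¬ 0 < P.ord (Polynomial.aeval (z 0) h) := fun h h1 h2 => not_lt.2 (hcon h h1 h2)
  let L : IntermediateField B M := IntermediateField.adjoin B {z 0}
  have hL : ∀ a ∈ L, a ≠ 0 → P.ord a = 0 := by
    intro a ha ha0
    obtain ⟨r, s, rfl⟩ := (IntermediateField.mem_adjoin_simple_iff B a).1 ha
    have h1 : Polynomial.aeval (z 0) r ≠ 0 := fun h => ha0 (by rw [h, zero_div])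
    have h2 : Polynomial.aeval (z 0) s ≠ 0 := fun h => ha0 (by rw [h, div_zero])
    rw [P.ord_div h1 h2, ord_aeval1 P (hz 0) hc r h1, ord_aeval1 P (hz 0) hc s h2, sub_self]
  have hz0 : z 0 ∈ L := IntermediateField.mem_adjoin_simple_self B (z 0)
  -- `z 1` is algebraic over `L`
  let Φ : MvPolynomial (Fin 2) B →+* Polynomial L :=
    eval₂Hom (Polynomial.C.comp (algebraMap B L)) ![Polynomial.C ⟨z 0, hz0⟩, Polynomial.X]
  have hder : ∀ p : MvPolynomial (Fin 2) B, Polynomial.derivative (Φ p) = Φ (pderiv 1 p) := by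
    intro p
    induction p using MvPolynomial.induction_on with
    | C r => simp [Φ]
    | add p q hp hq => rw [map_add, map_add, hp, hq, map_add, map_add]
    | mul_X p i hp =>
      rw [map_mul, Polynomial.derivative_mul, hp, Derivation.leibniz, map_add, smul_eq_mul,
        smul_eq_mul, map_mul, map_mul]
      have h1 : Polynomial.derivative (Φ (X i)) = Φ (pderiv 1 (X i)) := by
        fin_cases i
        · simp [Φ, pderiv_X]
        · simp [Φ, pderiv_X]
      rw [h1]
      ring
  have hev : ∀ p : MvPolynomial (Fin 2) B, Polynomial.aeval (z 1) (Φ p) = aeval z p := by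
    intro p
    have : (Polynomial.aeval (z 1) : Polynomial L →ₐ[L] M).toRingHom.comp Φ =
        (aeval z : MvPolynomial (Fin 2) B →ₐ[B] M).toRingHom := by
      apply MvPolynomial.ringHom_ext
      · intro r
        simp [Φ]
      · intro i
        fin_cases i
        · simp [Φ]
        · simp [Φ]
    exact RingHom.congr_fun this p
  have hne : Φ H ≠ 0 := by
    intro h0
    apply hs
    rw [← hev, ← hder, h0]
    simp
  have halg1 : IsAlgebraic L (z 1) := ⟨Φ H, hne, by rw [hev, hH]⟩
  -- everything is algebraic over `L`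
  have hall : ∀ f : M, IsAlgebraic L f := by
    have hle : IntermediateField.adjoin B (Set.range z) ≤
        (algebraicClosure L M).restrictScalars B := by
      rw [IntermediateField.adjoin_le_iff]
      rintro _ ⟨i, rfl⟩
      change z i ∈ algebraicClosure L M
      rw [mem_algebraicClosure_iff]
      fin_cases i
      · exact isAlgebraic_algebraMap (⟨z 0, hz0⟩ : L)
      · exact halg1
    intro f
    have : f ∈ (algebraicClosure L M).restrictScalars B := hle (by rw [hgen]; trivial)
    exact mem_algebraicClosure_iff.1 this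
  obtain ⟨t, ht0, ht⟩ := P.surj
  have := ord_alg (chg P L hL) ht0 (hall t)
  change P.ord t = 0 at this
  omega


/-- The residue map on the values of polynomials. -/
noncomputable def resA {z : Fin 2 → M} (hz : ∀ i, P.Reg (z i)) :
    (aeval z : MvPolynomial (Fin 2) B →ₐ[B] M).range →+* P.RF where
  toFun a := P.red a.1
  map_one' := P.red_one
  map_zero' := P.red_zero
  map_mul' a b := by
    obtain ⟨_, p, rfl⟩ := a
    obtain ⟨_, q, rfl⟩ := b
    exact P.red_mul (reg_aeval P hz p) (reg_aeval P hz q)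
  map_add' a b := by
    obtain ⟨_, p, rfl⟩ := a
    obtain ⟨_, q, rfl⟩ := b
    exact P.red_add (reg_aeval P hz p) (reg_aeval P hz q)

theorem key2 {z : Fin 2 → M} (hz : ∀ i, P.Reg (z i)) {H : MvPolynomial (Fin 2) B}
    (hH : aeval z H = 0) (hs : aeval z (pderiv 1 H) ≠ 0) (hs' : P.ord (aeval z (pderiv 1 H)) = 0)
    {h : Polynomial B} (hirr : Irreducible h) (hh : 0 < P.ord (Polynomial.aeval (z 0) h))
    (a : MvPolynomial (Fin 2) B) (ha : aeval z a = 0 ∨ 0 < P.ord (aeval z a)) :
    ∃ s b : MvPolynomial (Fin 2) B, aeval z s ≠ 0 ∧ P.ord (aeval z s) = 0 ∧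
      aeval z s * aeval z a = Polynomial.aeval (z 0) h * aeval z b := by
  let A := (aeval z : MvPolynomial (Fin 2) B →ₐ[B] M).range
  let z' : Fin 2 → A := fun i => ⟨z i, X i, aeval_X _ _⟩
  have hval : ∀ p : MvPolynomial (Fin 2) B, ((aeval z' p : A) : M) = aeval z p := by
    intro p
    have : (A.val).comp (aeval z') = aeval z := by
      apply MvPolynomial.algHom_ext
      intro i
      simp [z', aeval_X]
    exact congrArg (fun φ : MvPolynomial (Fin 2) B →ₐ[B] M => φ p) this
  have hval1 : ∀ p : Polynomial B, ((Polynomial.aeval (z' 0) p : A) : M) =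
      Polynomial.aeval (z 0) p := by
    intro p
    have := Polynomial.aeval_algHom_apply A.val (z' 0) p
    exact this.symm
  have hsurj : Function.Surjective (aeval z' : MvPolynomial (Fin 2) B →ₐ[B] A) := by
    rintro ⟨_, p, rfl⟩
    exact ⟨p, Subtype.ext (hval p)⟩
  have h1 : resA P hz (aeval z' (pderiv 1 H)) ≠ 0 := by
    change P.red _ ≠ 0
    rw [hval]
    exact P.red_ne_zero hs hs'
  have hreg1 : ∀ p : Polynomial B, P.Reg (Polynomial.aeval (z 0) p) := by
    intro p
    obtain ⟨q, hq⟩ := hsurj (Polynomial.aeval (z' 0) p)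
    rw [← hval1, ← hq, hval]
    exact reg_aeval P hz q
  have h2 : resA P hz (Polynomial.aeval (z' 0) h) = 0 := by
    change P.red _ = 0
    rw [hval1, P.red_eq_zero_iff (hreg1 h)]
    exact Or.inr hh
  have h3 : resA P hz (aeval z' a) = 0 := by
    change P.red _ = 0
    rw [hval, P.red_eq_zero_iff (reg_aeval P hz a)]
    exact ha
  obtain ⟨s, hs1, c, hc⟩ := key z' hsurj H (Subtype.ext (by rw [hval, hH]; rfl)) (resA P hz) h1 h
    hirr h2 _ h3
  obtain ⟨s, rfl⟩ := hsurj s
  obtain ⟨b, rfl⟩ := hsurj c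
  have hs2 : P.red (aeval z s) ≠ 0 := by
    rw [← hval]
    exact hs1
  have hs3 := (P.red_eq_zero_iff (reg_aeval P hz s)).not.1 hs2
  push Not at hs3
  have hs4 := (P.reg_iff hs3.1).1 (reg_aeval P hz s)
  refine ⟨s, b, hs3.1, by omega, ?_⟩
  have := congrArg Subtype.val hc
  simp only [MulMemClass.coe_mul, hval, hval1] at this
  exact this

theorem hfr {z : Fin 2 → M} (hz : ∀ i, P.Reg (z i)) {H : MvPolynomial (Fin 2) B}
    (hH : aeval z H = 0) (hs : aeval z (pderiv 1 H) ≠ 0) (hs' : P.ord (aeval z (pderiv 1 H)) = 0)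
    (hgen : IntermediateField.adjoin B (Set.range z) = ⊤) (f : M) (hf : P.Reg f) :
    ∃ a b : MvPolynomial (Fin 2) B, aeval z b ≠ 0 ∧ P.ord (aeval z b) = 0 ∧
      f * aeval z b = aeval z a := by
  obtain ⟨h, hirr, hh0, hh⟩ := exists_h P hz hH hs hgen
  have main : ∀ (n : ℕ) (a b : MvPolynomial (Fin 2) B), aeval z b ≠ 0 →
      P.ord (aeval z b) ≤ n → f * aeval z b = aeval z a →
      ∃ a b : MvPolynomial (Fin 2) B, aeval z b ≠ 0 ∧ P.ord (aeval z b) = 0 ∧
        f * aeval z b = aeval z a := by
    intro n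
    induction n with
    | zero =>
      intro a b hb hn hab
      have := (P.reg_iff hb).1 (reg_aeval P hz b)
      exact ⟨a, b, hb, by push_cast at hn; omega, hab⟩
    | succ n ih =>
      intro a b hb hn hab
      have hb0 := (P.reg_iff hb).1 (reg_aeval P hz b)
      rcases hb0.eq_or_lt with h0 | h0
      · exact ⟨a, b, hb, h0.symm, hab⟩
      · have ha : aeval z a = 0 ∨ 0 < P.ord (aeval z a) := by
          by_cases hf0 : f = 0
          · left; rw [← hab, hf0, zero_mul]
          · right
            rw [← hab, P.ord_mul hf0 hb]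
            have := (P.reg_iff hf0).1 hf
            omega
        obtain ⟨s, b1, hs0, hso, hsb⟩ := key2 P hz hH hs hs' hirr hh b (Or.inr h0)
        obtain ⟨t, a1, ht0, hto, hta⟩ := key2 P hz hH hs hs' hirr hh a ha
        have hb1 : aeval z b1 ≠ 0 := by
          intro h1
          rw [h1, mul_zero] at hsb
          exact mul_ne_zero hs0 hb hsb
        apply ih (s * a1) (t * b1)
        · rw [map_mul]; exact mul_ne_zero ht0 hb1
        · rw [map_mul, P.ord_mul ht0 hb1, hto]
          have h2 := congrArg P.ord hsb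
          rw [P.ord_mul hs0 hb, P.ord_mul hh0 hb1, hso] at h2
          push_cast at hn
          omega
        · rw [map_mul, map_mul]
          apply mul_left_cancel₀ hh0
          calc Polynomial.aeval (z 0) h * (f * (aeval z t * aeval z b1))
              = f * aeval z t * (Polynomial.aeval (z 0) h * aeval z b1) := by ring
            _ = f * aeval z t * (aeval z s * aeval z b) := by rw [hsb]
            _ = aeval z s * aeval z t * (f * aeval z b) := by ring
            _ = aeval z s * (aeval z t * aeval z a) := by rw [hab]; ring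
            _ = aeval z s * (Polynomial.aeval (z 0) h * aeval z a1) := by rw [hta]
            _ = _ := by ring
  have hmem : f ∈ IntermediateField.adjoin B (Set.range z) := by rw [hgen]; trivial
  obtain ⟨r, s, hrs⟩ := (IntermediateField.mem_adjoin_range_iff B z f).1 hmem
  by_cases hs0 : aeval z s = 0
  · refine ⟨0, 1, by simp, by rw [map_one, P.ord_one], ?_⟩
    rw [hrs, hs0, div_zero, zero_mul, map_zero]
  · refine main (P.ord (aeval z s)).toNat r s hs0 (Int.self_le_toNat _) ?_
    rw [hrs, div_mul_cancel₀ _ hs0]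

end main

section final

variable {Ω M : Type*} [Field Ω] [Field M] [Algebra Ω M]

theorem chart1 (B : IntermediateField Ω M) (z : Fin 2 → M) (H : MvPolynomial (Fin 2) B)
    (P : Place Ω M) (htriv : ∀ a ∈ B, a ≠ 0 → P.ord a = 0) (hH : aeval z H = 0)
    (hgen : IntermediateField.adjoin B (Set.range z) = ⊤) (hz : ∀ i, P.Reg (z i))
    (hs : aeval z (pderiv 1 H) ≠ 0) (hs' : P.ord (aeval z (pderiv 1 H)) = 0)
    (E : Derivation Ω M M) (hEB : ∀ c ∈ B, E c ∈ B) (hEz : ∀ i, P.Reg (E (z i))) (f : M)
    (hf : P.Reg f) : P.Reg (E f) := by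
  obtain ⟨a, b, hb0, hb, hab⟩ := hfr (chg P B htriv) hz hH hs hs' hgen f hf
  have hE : ∀ p : MvPolynomial (Fin 2) B, P.Reg (E (aeval z p)) := by
    intro p
    have hregp : ∀ p : MvPolynomial (Fin 2) B, P.Reg (aeval z p) :=
      reg_aeval (chg P B htriv) hz
    induction p using MvPolynomial.induction_on with
    | C r =>
      rw [aeval_C]
      exact (chg P B htriv).reg_const ⟨E r, hEB r r.2⟩
    | add p q hp hq => rw [map_add, map_add]; exact P.reg_add hp hq
    | mul_X p i hp =>
      rw [map_mul, aeval_X, Derivation.leibniz, smul_eq_mul, smul_eq_mul]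
      exact P.reg_add (P.reg_mul (hregp p) (hEz i)) (P.reg_mul (hz i) hp)
  change P.ord (aeval z b) = 0 at hb
  have h1 : f * E (aeval z b) + aeval z b * E f = E (aeval z a) := by
    rw [← hab, Derivation.leibniz, smul_eq_mul, smul_eq_mul]
  have h2 : E f = (E (aeval z a) + -(f * E (aeval z b))) * (aeval z b)⁻¹ := by
    rw [← h1]
    field_simp
    ring
  rw [h2]
  refine P.reg_mul (P.reg_add (hE a) (P.reg_neg (P.reg_mul hf (hE b)))) ?_
  right
  rw [P.ord_inv, hb, neg_zero]

theorem chart (B : IntermediateField Ω M) (z : Fin 2 → M) (H : MvPolynomial (Fin 2) B)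
    (P : Place Ω M) (htriv : ∀ a ∈ B, a ≠ 0 → P.ord a = 0) (hH : aeval z H = 0)
    (hgen : IntermediateField.adjoin B (Set.range z) = ⊤) (hz : ∀ i, P.Reg (z i))
    (hsm : ∃ i, aeval z (pderiv i H) ≠ 0 ∧ P.ord (aeval z (pderiv i H)) = 0)
    (E : Derivation Ω M M) (hEB : ∀ c ∈ B, E c ∈ B) (hEz : ∀ i, P.Reg (E (z i))) (f : M)
    (hf : P.Reg f) : P.Reg (E f) := by
  obtain ⟨i, hs, hs'⟩ := hsm
  fin_cases i
  · -- exchange the variables
    let σ : Fin 2 ≃ Fin 2 := Equiv.swap 0 1
    have hev : ∀ p : MvPolynomial (Fin 2) B, aeval (z ∘ σ) (rename σ p) = aeval z p := by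
      intro p
      rw [aeval_rename]
      congr 2
      ext i
      fin_cases i <;> simp [σ]
    have hd : aeval (z ∘ σ) (pderiv 1 (rename σ H)) = aeval z (pderiv 0 H) := by
      have h1 : pderiv (σ 0) (rename σ H) = rename σ (pderiv 0 H) :=
        pderiv_rename σ.injective 0 H
      have h2 : σ 0 = 1 := by simp [σ]
      rw [h2] at h1
      rw [h1, hev]
    refine chart1 B (z ∘ σ) (rename σ H) P htriv (by rw [hev]; exact hH) ?_ (fun i => hz _) ?_ ?_
      E hEB (fun i => hEz _) f hf
    · rw [σ.surjective.range_comp]; exact hgen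
    · rw [hd]; exact hs
    · rw [hd]; exact hs'
  · exact chart1 B z H P htriv hH hgen hz hs hs' E hEB hEz f hf

end final

/-- P3: derivations which map the coordinates to regular functions are regular. -/
theorem sChart : Pool.Agent.Y742.SP.SChart := by
  intro Ω M _ _ _ _ B z H P hC E hEB hEz f hf
  exact chart B z H P hC.triv hC.zero hC.gen hC.reg hC.smooth E hEB hEz f hf

end Pool.Agent.Y971.SP
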